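import Pool.Agent.X223.HL.Chain

/-!
# Harmonic labelings of `G x Z`

For every infinite transitive graph `G` (simple, connected, locally finite) the Cartesian product
of `G` with the two-way infinite path has a harmonic labeling: an integer valued harmonic function
which is a bijection onto the integers.
-/

namespace Pool.Agent.Results.MP_0f2988_co.HarmonicLabeling

open Pool.Agent.X223.HL

/-- The two-way infinite path on the integers. -/
def zPath : SimpleGraph ℤ where
  Adj a b := b = a + 1 ∨ a = b + 1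
  symm := ⟨fun _ _ h => h.symm⟩
  loopless := ⟨fun a h => by rcases h with h | h <;> omega⟩

/-- `φ` is harmonic: its value at every vertex is the mean of the values at the neighbours. -/
def IsHarmonic {W : Type*} (H : SimpleGraph W) [H.LocallyFinite] (φ : W → ℤ) : Prop :=
  ∀ x, (φ x : ℚ) = (1 / (H.degree x : ℚ)) * ∑ y ∈ H.neighborFinset x, (φ y : ℚ)

/-- A harmonic labeling is a harmonic bijection onto the integers. -/
def HasHarmonicLabeling {W : Type*} (H : SimpleGraph W) [H.LocallyFinite] : Prop :=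
  ∃ φ : W → ℤ, Function.Bijective φ ∧ IsHarmonic H φ

section

variable {V : Type*} (G : SimpleGraph V) [G.LocallyFinite]

/-- The point with given layer. -/
def pt (u : V × ℤ) : Pt V :=
  if 1 ≤ u.2 then (u.1, (u.2 - 1).toNat, true) else (u.1, (-u.2).toNat, false)

theorem pt_inj : Function.Injective (pt (V := V)) := by
  rintro ⟨x, n⟩ ⟨y, m⟩ h
  unfold pt at h
  by_cases hn : 1 ≤ n <;> by_cases hm : 1 ≤ m <;> simp only [hn, hm, if_true, if_false,
    Prod.mk.injEq, and_true, Bool.true_eq_false, Bool.false_eq_true, and_false] at h ⊢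
  · exact ⟨h.1, by omega⟩
  · exact ⟨h.1, by omega⟩

theorem pt_surj (p : Pt V) : ∃ u, pt u = p := by
  obtain ⟨x, j, s⟩ := p
  cases s
  · refine ⟨(x, -(j : ℤ)), ?_⟩
    unfold pt
    have : ¬ (1 ≤ -(j : ℤ)) := by omega
    simp [this]
  · refine ⟨(x, (j : ℤ) + 1), ?_⟩
    unfold pt
    simp

/-- The labeling made from two layers. -/
noncomputable def lab (d : ℕ) (f1 f0 : V → ℤ) (u : V × ℤ) : ℤ :=
  if 1 ≤ u.2 then U G d f0 f1 u.2.toNat u.1 else U G d f1 f0 (1 - u.2).toNat u.1

theorem lab_val (d : ℕ) (f1 f0 : V → ℤ) (u : V × ℤ) :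
    (lab G d f1 f0 u : ℝ) = val f1 f0 (F1 G d (pt u)) (F0 G d (pt u)) := by
  obtain ⟨x, n⟩ := u
  unfold lab pt
  by_cases hn : 1 ≤ n
  · obtain ⟨j, rfl⟩ : ∃ j : ℕ, n = (j : ℤ) + 1 := ⟨(n - 1).toNat, by omega⟩
    have h1 : ((j : ℤ) + 1).toNat = j + 1 := by omega
    have h2 : ((j : ℤ) + 1 - 1).toNat = j := by omega
    simp only [hn, if_true, h1, h2, F1, F0]
    rw [U_val, val, map_neg]; ring
  · obtain ⟨j, rfl⟩ : ∃ j : ℕ, n = -(j : ℤ) := ⟨(-n).toNat, by omega⟩
    have h1 : (1 - -(j : ℤ)).toNat = j + 1 := by omega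
    have h2 : (- -(j : ℤ)).toNat = j := by omega
    simp only [hn, if_false, h1, h2, F1, F0, Bool.false_eq_true]
    rw [U_val, val, map_neg]; ring

theorem lab_up (d : ℕ) (f1 f0 : V → ℤ) (x : V) (n : ℕ) :
    lab G d f1 f0 (x, (n : ℤ)) = U G d f0 f1 n x := by
  unfold lab
  by_cases hn : 1 ≤ (n : ℤ)
  · simp [hn]
  · have : n = 0 := by omega
    subst this
    simp [U]

theorem lab_down (d : ℕ) (f1 f0 : V → ℤ) (x : V) (n : ℕ) :
    lab G d f1 f0 (x, 1 - (n : ℤ)) = U G d f1 f0 n x := by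
  unfold lab
  by_cases hn : 1 ≤ 1 - (n : ℤ)
  · have : n = 0 := by omega
    subst this
    simp [U]
  · simp only [hn, if_false]
    congr 1
    omega

theorem lab_step (d : ℕ) (f1 f0 : V → ℤ) (x : V) (n : ℤ) :
    ((d : ℤ) + 2) * lab G d f1 f0 (x, n) = (∑ y ∈ G.neighborFinset x, lab G d f1 f0 (y, n)) +
      (lab G d f1 f0 (x, n + 1) + lab G d f1 f0 (x, n - 1)) := by
  by_cases hn : 1 ≤ n
  · obtain ⟨k, rfl⟩ : ∃ k : ℕ, n = (k : ℤ) + 1 := ⟨(n - 1).toNat, by omega⟩
    have e1 : ((k : ℤ) + 1) = ((k + 1 : ℕ) : ℤ) := by push_cast; ring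
    have e2 : ((k : ℤ) + 1 + 1) = ((k + 2 : ℕ) : ℤ) := by push_cast; ring
    have e0 : ((k : ℤ) + 1 - 1) = (k : ℤ) := by ring
    rw [e2, e0, e1]
    simp only [lab_up]
    rw [U_add_two]
    unfold dZ
    ring
  · obtain ⟨k, rfl⟩ : ∃ k : ℕ, n = 1 - ((k + 1 : ℕ) : ℤ) := ⟨(-n).toNat, by push_cast; omega⟩
    have e1 : 1 - ((k + 1 : ℕ) : ℤ) + 1 = 1 - (k : ℤ) := by push_cast; ring
    have e2 : 1 - ((k + 1 : ℕ) : ℤ) - 1 = 1 - ((k + 2 : ℕ) : ℤ) := by push_cast; ring
    rw [e1, e2]
    simp only [lab_down]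
    rw [U_add_two]
    unfold dZ
    ring

end

/-- Every `G x Z` with `G` infinite, connected, locally finite and transitive has a harmonic
labeling. -/
theorem result {V : Type*} [Infinite V] (G : SimpleGraph V) [G.LocallyFinite]
    [(G □ zPath).LocallyFinite] (hc : G.Connected) (ht : ∀ x y : V, ∃ e : G ≃g G, e x = y) :
    HasHarmonicLabeling (G □ zPath) := by
  classical
  have : Nonempty V := hc.nonempty
  obtain ⟨d, hd⟩ := exists_degree (G := G) ht
  obtain ⟨f1, f0, h1, h2⟩ := main_exists hc hd ht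
  refine ⟨lab G d f1 f0, ⟨?_, ?_⟩, ?_⟩
  · intro u v huv
    by_contra hne
    apply h1 (pt u) (pt v) (fun h => hne (pt_inj h))
    rw [← lab_val, ← lab_val, huv]
  · intro N
    obtain ⟨p, hp⟩ := h2 N
    obtain ⟨u, rfl⟩ := pt_surj p
    refine ⟨u, ?_⟩
    rw [← lab_val] at hp
    exact_mod_cast hp
  · rintro ⟨x, n⟩
    have hinj : Function.Injective (fun y : V => (y, n)) := fun a b h => by simpa using h
    set A : Finset (V × ℤ) := (G.neighborFinset x).map ⟨fun y => (y, n), hinj⟩ with hA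
    have hAm : ∀ y m, (y, m) ∈ A ↔ G.Adj x y ∧ m = n := by
      intro y m
      simp only [hA, Finset.mem_map, SimpleGraph.mem_neighborFinset]
      constructor
      · rintro ⟨z, h, h3⟩
        have h4 : (z, n) = (y, m) := h3
        simp only [Prod.mk.injEq] at h4
        obtain ⟨rfl, rfl⟩ := h4
        exact ⟨h, rfl⟩
      · rintro ⟨h, rfl⟩
        exact ⟨y, h, rfl⟩
    have hN : (G □ zPath).neighborFinset (x, n) = A ∪ {(x, n + 1), (x, n - 1)} := by
      ext ⟨y, m⟩
      rw [SimpleGraph.mem_neighborFinset, SimpleGraph.boxProd_adj]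
      simp only [Finset.mem_union, hAm, Prod.mk.injEq, Finset.mem_insert, Finset.mem_singleton,
        zPath]
      constructor
      · rintro (⟨h, rfl⟩ | ⟨h | h, rfl⟩)
        · left; exact ⟨h, rfl⟩
        · right; left; exact ⟨rfl, h⟩
        · right; right; exact ⟨rfl, by omega⟩
      · rintro (⟨h, rfl⟩ | ⟨rfl, rfl⟩ | ⟨rfl, rfl⟩)
        · left; exact ⟨h, rfl⟩
        · right; exact ⟨Or.inl rfl, rfl⟩
        · right; exact ⟨Or.inr (by omega), rfl⟩
    have hdisj : Disjoint A {(x, n + 1), (x, n - 1)} := by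
      rw [Finset.disjoint_left]
      rintro ⟨y, m⟩ hy hy'
      simp only [hAm, Prod.mk.injEq, Finset.mem_insert, Finset.mem_singleton] at hy hy'
      omega
    have hne : ((x, n + 1) : V × ℤ) ≠ (x, n - 1) := by
      intro h; simp only [Prod.mk.injEq] at h; omega
    have hdeg : (G □ zPath).degree (x, n) = d + 2 := by
      rw [← SimpleGraph.card_neighborFinset_eq_degree, hN, Finset.card_union_of_disjoint hdisj,
        hA, Finset.card_map, SimpleGraph.card_neighborFinset_eq_degree, hd x, Finset.card_pair hne]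
    have hsum : ∑ y ∈ (G □ zPath).neighborFinset (x, n), (lab G d f1 f0 y : ℚ) =
        ((d : ℚ) + 2) * lab G d f1 f0 (x, n) := by
      rw [hN, Finset.sum_union hdisj, hA, Finset.sum_map, Finset.sum_pair hne]
      have := lab_step G d f1 f0 x n
      have h3 : (((d : ℤ) + 2) * lab G d f1 f0 (x, n) : ℤ) = ((∑ y ∈ G.neighborFinset x,
        lab G d f1 f0 (y, n)) + (lab G d f1 f0 (x, n + 1) + lab G d f1 f0 (x, n - 1)) : ℤ) := this
      exact_mod_cast h3.symm
    rw [hsum, hdeg]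
    have : ((d : ℚ) + 2) ≠ 0 := by positivity
    push_cast
    field_simp

end Pool.Agent.Results.MP_0f2988_co.HarmonicLabeling
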